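import Pool.Agent.Helper20.PF.Good

/-!
# From heights to slopes
-/

set_option autoImplicit false

open Finset
open scoped Classical

namespace Pool.Agent.Helper20.PF
open Pool.Agent.Helper20.GS

/-- The function `x + r y` (`y` for `r = ∞`). -/
def val : Option ℚ → ℤ × ℤ → ℚ
  | none, z => (z.2 : ℚ)
  | some r, z => (z.1 : ℚ) + r * (z.2 : ℚ)

/-- The projection in direction `r`; `none` stands for `∞`. -/
noncomputable def proj (r : Option ℚ) (A : Finset (ℤ × ℤ)) : Finset ℚ := A.image (val r)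

/-- The height of a slope. -/
def height : Option ℚ → ℚ
  | none => 0
  | some r => 1 / (1 + r)

lemma card_proj {A : Finset (ℚ × ℚ)} {q : ℚ} (hq : q ≠ 0)
    (h1 : ∀ z ∈ A, ((⌊q * z.1⌋ : ℤ) : ℚ) = q * z.1)
    (h2 : ∀ z ∈ A, ((⌊q * (z.1 + z.2)⌋ : ℤ) : ℚ) = q * (z.1 + z.2))
    (r : Option ℚ) (hr : r ≠ some (-1)) :
    (proj r (A.image fun z => (⌊q * (z.1 + z.2)⌋, ⌊q * z.1⌋))).card =
      (A.image fun z => z.1 + height r * z.2).card := by
  obtain ⟨c, hc, key⟩ : ∃ c : ℚ, c ≠ 0 ∧ ∀ z ∈ A,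
      val r (⌊q * (z.1 + z.2)⌋, ⌊q * z.1⌋) = c * (z.1 + height r * z.2) := by
    cases r with
    | none =>
      refine ⟨q, hq, fun z hz => ?_⟩
      simp only [val, height]
      rw [h1 z hz]
      ring
    | some r =>
      have hr' : 1 + r ≠ 0 := by
        intro h
        apply hr
        rw [show r = -1 by linarith]
      refine ⟨q * (1 + r), mul_ne_zero hq hr', fun z hz => ?_⟩
      simp only [val, height]
      rw [h1 z hz, h2 z hz]
      field_simp
      ring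
  have e : proj r (A.image fun z => (⌊q * (z.1 + z.2)⌋, ⌊q * z.1⌋)) =
      (A.image fun z => z.1 + height r * z.2).image (fun u => c * u) := by
    unfold proj
    rw [image_image, image_image]
    exact image_congr fun z hz => key z hz
  rw [e, card_image_of_injective _ (mul_right_injective₀ hc)]

lemma card_diff {A : Finset (ℚ × ℚ)} {q : ℚ} (hq : q ≠ 0)
    (h1 : ∀ z ∈ A, ((⌊q * z.1⌋ : ℤ) : ℚ) = q * z.1)
    (h2 : ∀ z ∈ A, ((⌊q * (z.1 + z.2)⌋ : ℤ) : ℚ) = q * (z.1 + z.2)) :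
    (proj (some (-1)) (A.image fun z => (⌊q * (z.1 + z.2)⌋, ⌊q * z.1⌋))).card =
      (A.image Prod.snd).card := by
  have e : proj (some (-1)) (A.image fun z => (⌊q * (z.1 + z.2)⌋, ⌊q * z.1⌋)) =
      (A.image Prod.snd).image (fun u => q * u) := by
    unfold proj
    rw [image_image, image_image]
    refine image_congr fun z hz => ?_
    simp only [Function.comp, val]
    rw [h1 z hz, h2 z hz]
    ring
  rw [e, card_image_of_injective _ (mul_right_injective₀ hq)]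

/-- From rational to integer points. -/
lemma to_int (A : Finset (ℚ × ℚ)) (hA : A.Nonempty) :
    ∃ B : Finset (ℤ × ℤ), B.Nonempty ∧
      (∀ r : Option ℚ, r ≠ some (-1) →
        (proj r B).card = (A.image fun z => z.1 + height r * z.2).card) ∧
      (proj (some (-1)) B).card = (A.image Prod.snd).card := by
  obtain ⟨b, hb⟩ := IsLocalization.exist_integer_multiples_of_finset (nonZeroDivisors ℤ)
    (A.image Prod.fst ∪ A.image Prod.snd)
  have hq : ((b : ℤ) : ℚ) ≠ 0 := by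
    exact_mod_cast nonZeroDivisors.ne_zero b.2
  have hz : ∀ a ∈ A.image Prod.fst ∪ A.image Prod.snd, ∃ m : ℤ, (m : ℚ) = ((b : ℤ) : ℚ) * a := by
    intro a ha
    obtain ⟨m, hm⟩ := hb a ha
    refine ⟨m, ?_⟩
    rw [Algebra.smul_def] at hm
    simpa using hm
  have h1 : ∀ z ∈ A, ((⌊((b : ℤ) : ℚ) * z.1⌋ : ℤ) : ℚ) = ((b : ℤ) : ℚ) * z.1 := by
    intro z hzA
    obtain ⟨m, hm⟩ := hz z.1 (mem_union_left _ (mem_image_of_mem _ hzA))
    rw [← hm, Int.floor_intCast]
  have h2 : ∀ z ∈ A, ((⌊((b : ℤ) : ℚ) * (z.1 + z.2)⌋ : ℤ) : ℚ) = ((b : ℤ) : ℚ) * (z.1 + z.2) := by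
    intro z hzA
    obtain ⟨m, hm⟩ := hz z.1 (mem_union_left _ (mem_image_of_mem _ hzA))
    obtain ⟨m', hm'⟩ := hz z.2 (mem_union_right _ (mem_image_of_mem _ hzA))
    rw [mul_add, ← hm, ← hm', ← Int.cast_add, Int.floor_intCast]
  exact ⟨_, hA.image _, fun r hr => card_proj hq h1 h2 r hr, card_diff hq h1 h2⟩

theorem main {ι : Type} [Fintype ι] (U : ι → Set ℚ) (c : ι → ℝ) (hU : ∀ i, Good (U i) (c i))
    (S : Finset (Option ℚ)) (hS : some (-1) ∉ S) (hcov : ∀ r ∈ S, ∃ i, height r ∈ U i) (κ : ℝ)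
    (hκ : 0 ≤ κ) (h : κ * (∑ i, c i - 1) < ∑ i, c i) (C : ℝ) :
    ∃ A : Finset (ℤ × ℤ), A.Nonempty ∧
      ∀ r ∈ S, C * ((proj r A).card : ℝ) ^ κ < (proj (some (-1)) A).card := by
  obtain ⟨G, hG⟩ := combine U c hU (S.image height) (fun t ht => by
      rw [mem_image] at ht
      obtain ⟨r, hr, rfl⟩ := ht
      exact hcov r hr) κ hκ h
  obtain ⟨A, hA, h1⟩ := G.expo (S.image height) κ hκ hG C
  obtain ⟨B, hB, h2, h3⟩ := to_int A hA
  refine ⟨B, hB, fun r hr => ?_⟩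
  have h4 := h1 (height r) (mem_image_of_mem _ hr)
  rw [h2 r (fun e => hS (e ▸ hr)), h3]
  exact h4

end Pool.Agent.Helper20.PF
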