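import Pool.Agent.Helper20.GS.Comb
import Pool.Agent.Helper20.RE.Stm
import Pool.Agent.Helper29.RE.L2

/-!
# A set of slopes without relations costs `(2 - δ) / (1 - δ)`
-/

set_option autoImplicit false

open Finset
open scoped Classical

namespace Pool.Agent.Helper20.PF
open Pool.Agent.W904.AK Pool.Agent.Helper20.GS Pool.Agent.Helper20.RE

/-- the heights of the slopes `0`, `∞`, `r i` -/
def heights {k : ℕ} (r : Fin k → ℚ) : Set ℚ := {t | t = 0 ∨ t = 1 ∨ ∃ i, t = 1 / (1 + r i)}

theorem good_free {k : ℕ} (r : Fin k → ℚ) (hr : ∀ i, r i ≠ -1) {δ : ℝ} (h0 : 0 < δ) (h1 : δ < 1)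
    (h : ¬ Expo r (2 - δ)) : Good (heights r) ((2 - δ) / (1 - δ)) := by
  have hc : 0 < (2 - δ) / (1 - δ) := div_pos (by linarith) (by linarith)
  refine ⟨hc, fun T hT c' hc' => ?_⟩
  unfold Expo at h
  push Not at h
  obtain ⟨A, hA⟩ := h
  -- one point for each difference
  have hpt : ∀ d : {d // d ∈ pr (-1) A}, ∃ z ∈ A, (z.1 : ℚ) + (-1) * (z.2 : ℚ) = d := fun d => by
    have := d.2
    unfold pr at this
    rw [mem_image] at this
    exact this
  choose z hzA hz using hpt
  have hne : (pr (-1) A).Nonempty := by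
    rw [nonempty_iff_ne_empty]
    intro h2
    rw [h2, card_empty, Nat.cast_zero] at hA
    exact absurd hA (not_lt.2 (Real.rpow_nonneg (Nat.cast_nonneg _) _))
  obtain ⟨d₀, hd₀⟩ := hne
  have hAne : A.Nonempty := ⟨z ⟨d₀, hd₀⟩, hzA _⟩
  have : Nonempty {d // d ∈ pr (-1) A} := ⟨⟨d₀, hd₀⟩⟩
  let G : Gad :=
    { Ω := {d // d ∈ pr (-1) A}
      X := fun d => ((z d).2 : ℚ)
      D := fun d => (d : ℚ)
      inj := Subtype.val_injective }
  have hcardΩ : Fintype.card G.Ω = (pr (-1) A).card := Fintype.card_coe _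
  have htop1 : 1 ≤ top r A := by
    have h2 : 0 < (pr 0 A).card := card_pos.2 (hAne.image _)
    have h3 : (pr 0 A).card ≤ top r A := (le_max_left _ _).trans (le_max_left _ _)
    omega
  have htopR : (1 : ℝ) ≤ top r A := by exact_mod_cast htop1
  have hlogtop : 0 ≤ Real.log (top r A) := Real.log_nonneg htopR
  have hL : (2 - δ) * Real.log (top r A) < G.L := by
    unfold Gad.L
    rw [hcardΩ, ← Real.log_rpow (by linarith)]
    exact Real.log_lt_log (Real.rpow_pos_of_pos (by linarith) _) hA
  have hL0 : 0 < G.L := lt_of_le_of_lt (mul_nonneg (by linarith) hlogtop) hL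
  -- the entropies
  have hH : ∀ (t : ℚ) (s : ℚ) (V : Finset ℚ), (∀ d : G.Ω, s * (G.X d + t * G.D d) ∈ V) → s ≠ 0 →
      V.card ≤ top r A → G.h t ≤ Real.log (top r A) := by
    intro t s V hV hs hcard
    have h2 : G.h t ≤ Real.log ((V.image fun v => s⁻¹ * v).card) := by
      refine H_le_log_card (unif_law G.Ω) _ _ fun d _ => ?_
      rw [mem_image]
      exact ⟨_, hV d, by field_simp⟩
    refine h2.trans (Real.log_le_log ?_ ?_)
    · have h3 : (V.image fun v => s⁻¹ * v).Nonempty := ⟨_, mem_image_of_mem _ (hV ⟨d₀, hd₀⟩)⟩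
      exact_mod_cast card_pos.2 h3
    · exact_mod_cast card_image_le.trans hcard
  have hle : ∀ t ∈ T, G.h t ≤ Real.log (top r A) := by
    intro t ht
    rcases hT ht with rfl | rfl | ⟨i, rfl⟩
    · refine hH 0 1 (prInf A) (fun d => ?_) one_ne_zero ((le_max_right _ _).trans (le_max_left _ _))
      unfold prInf
      rw [mem_image]
      exact ⟨z d, hzA d, by simp [G]⟩
    · refine hH 1 1 (pr 0 A) (fun d => ?_) one_ne_zero ((le_max_left _ _).trans (le_max_left _ _))
      unfold pr
      rw [mem_image]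
      refine ⟨z d, hzA d, ?_⟩
      have := hz d
      simp only [G]
      linarith
    · have hr' : 1 + r i ≠ 0 := by
        intro h2
        exact hr i (by linarith)
      refine hH _ (1 + r i) (pr (r i) A) (fun d => ?_) hr' ?_
      · unfold pr
        rw [mem_image]
        refine ⟨z d, hzA d, ?_⟩
        have := hz d
        simp only [G]
        rw [← this]
        field_simp
        ring
      · exact (Finset.le_sup (f := fun i => (pr (r i) A).card) (mem_univ i)).trans (le_max_right _ _)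
  refine ⟨G, hL0, fun t ht => ?_⟩
  have h2 := hle t ht
  have hc1 : (2 - δ) / (1 - δ) * (1 - δ) = 2 - δ := div_mul_cancel₀ _ (by linarith)
  have h3 : G.L ≤ (2 - δ) / (1 - δ) * (G.L - G.h t) := by
    rw [div_mul_eq_mul_div, le_div_iff₀ (by linarith)]
    nlinarith
  have h4 : 0 ≤ G.L - G.h t := by
    have := G.h_le t
    linarith
  exact h3.trans (mul_le_mul_of_nonneg_right hc'.le h4)

end Pool.Agent.Helper20.PF
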